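import Pool.Agent.D0H36.BL.PlanP

/-!
# The Birkhoff-Lewis inequality holds for all planar graphs, or for a share 1/2 + O(exp (-c n)) of them

Authors: helper36 (statement, sites, involution), helper22, helper70, helper73 (modules).

`P(G,q)` is the chromatic polynomial.  We consider the labelled planar graphs with `n` vertices, all of
them with the same probability (`share n p` is the share of those with the property `p`).

(1) Each root `q > 1` of the chromatic polynomial of ONE planar graph is a root of the chromatic polynomials
of ALMOST ALL planar graphs, of order at least `c n` for all but a share `exp (-c n)`.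

(2) FIFTY PERCENT LAW.  Let `q > 2` be no such root, for example a transcendental number.  Then
`P(G,q) > 0` for ALL planar graphs, or `P(G,q) > 0` for exactly HALF of the planar graphs, asymptotically:
the share differs from `1/2` by at most `exp (-c n)`.  In all cases the inequality `P(G,q) > 0` holds for
a share `≥ 1/2 - exp (-c n)` of the labelled planar graphs.  (3) Between two and three it is exactly half.

(4) If the Birkhoff-Lewis conjecture (`P(G,q) > 0` for all planar `G` and `q ≥ 4`) is false, then
all but a share `exp (-c n)` of the labelled planar graphs have at least `c n` chromatic roots `≥ 4`.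

(5), (6) So the conjecture is equivalent to the existence of rather few planar graphs with few roots:
for all `c > 0` there are infinitely many `n` such that more than a share `exp (-c n)` of the
planar graphs have less than `c n` roots `≥ 4`.  And `P(G,q) > 0` for all planar `G`, for a fixed
`q > 2`, if and only if for all `c > 0` the share of the `G` with `P(G,q) > 0` is larger than
`1/2 + exp (-c n)` for infinitely many `n`.

Planar graphs are defined here by a form of the conditions of Kuratowski, Wagner and van Kampen
(`Planar`); parts (P1) and (P2) of the theorem compare this with drawings and with excluded minors.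

Proof.  Let `B` be a planar graph with the least number `h` of vertices among those with `P(B,q) < 0` (or
`= 0`); there are two edges between any two complementary sets of vertices.  A site of `G` is a set of
`h` vertices, with exactly one edge to the other vertices, on which `G` looks (with respect to the
order) like `B` or like a fixed graph `A` of the same kind with `P(A,q) > 0`.  Different sites are disjoint,
`q P(G) = (q - 1) P(B) P(G')` for a `B`-site, `G'` the rest, and the replacement of `B` by `A` or of `A`
by `B` at one site is an involution on the planar graphs with sites which changes the sign of `P`.  The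
number `N(n)` of planar graphs satisfies `N(n+1) ≤ C n N(n)`: each planar graph has many pairs of
adjacent vertices of bounded degree, or many pairs of vertices with the same neighbourhood, and we
contract, or delete.  This and the insertion of sites give `N_j(n) ≤ (C (j + 2 k) / n)^k N(n)`
for the number `N_j(n)` of planar graphs with at most `j` sites.  (Linearly many pendant copies of a graph,
in random graphs of addable classes: McDiarmid, Steger and Welsh 2005.)
-/

set_option autoImplicit false

namespace Pool.Agent.Results.MP_0d034c_co.FiftyPercentLaw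

open Polynomial Filter

/-- the vertices `u` and `v` are joined by a walk inside the set `S` of vertices -/
def Joined {V : Type} (G : SimpleGraph V) (S : Set V) (u v : V) : Prop :=
  ∃ w : G.Walk u v, ∀ z ∈ w.support, z ∈ S

/-- five vertices are joined pairwise by walks, walks belonging to disjoint pairs being disjoint -/
def WeakK5 {V : Type} (G : SimpleGraph V) : Prop :=
  ∃ (x : Fin 5 → V) (A : Fin 5 → Fin 5 → Set V),
    (∀ a b, a < b → Joined G (A a b) (x a) (x b)) ∧
    (∀ a b c d, a < b → c < d → a ≠ c → a ≠ d → b ≠ c → b ≠ d → Disjoint (A a b) (A c d))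

/-- three vertices are joined to three vertices by walks, walks belonging to disjoint pairs being
disjoint -/
def WeakK33 {V : Type} (G : SimpleGraph V) : Prop :=
  ∃ (x y : Fin 3 → V) (A : Fin 3 → Fin 3 → Set V),
    (∀ a b, Joined G (A a b) (x a) (y b)) ∧
    (∀ a b c d, a ≠ c → b ≠ d → Disjoint (A a b) (A c d))

/-- Planar graphs: neither of the two configurations.  Graphs drawn in the plane have neither
(van Kampen), and a graph with neither has no `K₅` minor and no `K₃₃` minor, see (P1), (P2); so a finite
graph is `Planar` if and only if it is planar, by the theorem of Wagner (which is not used). -/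
def Planar {V : Type} (G : SimpleGraph V) : Prop := ¬ WeakK5 G ∧ ¬ WeakK33 G

/-- `G` can be drawn in the plane with non-crossing arcs (as in the frozen statement) -/
def Drawn {V : Type} (G : SimpleGraph V) : Prop :=
  ∃ (f : V → ℝ × ℝ) (γ : V → V → ℝ → ℝ × ℝ),
    Function.Injective f ∧
    (∀ u v : V, G.Adj u v →
      ContinuousOn (γ u v) (Set.Icc (0:ℝ) 1) ∧ Set.InjOn (γ u v) (Set.Icc (0:ℝ) 1) ∧
      γ u v 0 = f u ∧ γ u v 1 = f v ∧
      ∀ t ∈ Set.Ioo (0:ℝ) 1, ∀ w : V, γ u v t ≠ f w) ∧
    (∀ u v u' v' : V, G.Adj u v → G.Adj u' v' → s(u, v) ≠ s(u', v') →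
      ∀ t ∈ Set.Ioo (0:ℝ) 1, ∀ t' ∈ Set.Ioo (0:ℝ) 1, γ u v t ≠ γ u' v' t')

/-- `K` is a minor of `G`: there are disjoint connected sets `β w` of vertices of `G`, for the vertices `w` of
`K`, joined by an edge of `G` whenever the vertices are adjacent in `K` -/
def IsMinor {V W : Type} (K : SimpleGraph W) (G : SimpleGraph V) : Prop :=
  ∃ β : W → Set V, (∀ w, (G.induce (β w)).Connected) ∧ (∀ w w', w ≠ w' → Disjoint (β w) (β w')) ∧
    ∀ w w', K.Adj w w' → ∃ x ∈ β w, ∃ y ∈ β w', G.Adj x y

/-- the chromatic polynomial, see (P3) -/
noncomputable def P {V : Type} [Finite V] (G : SimpleGraph V) : ℝ[X] := Pool.Agent.H207R2.BL.chr G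

/-- `P(G,q) > 0` for all finite planar graphs -/
def AllPositive (q : ℝ) : Prop :=
  ∀ (V : Type) [Finite V] (G : SimpleGraph V), Planar G → 0 < (P G).eval q

/-- the Birkhoff-Lewis conjecture -/
def BirkhoffLewis : Prop := ∀ q : ℝ, 4 ≤ q → AllPositive q

/-- `q` is a root of the chromatic polynomial of a finite planar graph -/
def PlanarRoot (q : ℝ) : Prop :=
  ∃ (V : Type) (_ : Finite V) (G : SimpleGraph V), Planar G ∧ (P G).eval q = 0

/-- the share of the graphs with the property `p` among the planar graphs with the vertices
`0, …, n - 1` -/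
noncomputable def share (n : ℕ) (p : SimpleGraph (Fin n) → Prop) : ℝ :=
  (Nat.card {G : SimpleGraph (Fin n) // Planar G ∧ p G} : ℝ) /
    (Nat.card {G : SimpleGraph (Fin n) // Planar G} : ℝ)

/-- the number of the real roots `x ≥ 4` of the chromatic polynomial, with multiplicities -/
noncomputable def rootsGeFour {V : Type} [Finite V] (G : SimpleGraph V) : ℕ :=
  ((P G).roots.filter (fun x => 4 ≤ x)).card

/-- `f c n ≤ exp (-c n)` for some `c > 0` and all large `n` -/
def ExpSmall (f : ℝ → ℕ → ℝ) : Prop :=
  ∃ c : ℝ, 0 < c ∧ ∀ᶠ n : ℕ in atTop, f c n ≤ Real.exp (-(c * n))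

theorem share_eq (n : ℕ) (p : SimpleGraph (Fin n) → Prop) :
    share n p = Pool.Agent.D0H36.BL.share Pool.Agent.R814.BL.Cl n p := by
  unfold share Pool.Agent.D0H36.BL.share Pool.Agent.D0H36.BL.num Pool.Agent.D0H36.BL.cnt
  congr 2
  exact Nat.card_congr (Equiv.subtypeEquivRight (fun G => ⟨fun h => ⟨h, trivial⟩, fun h => h.1⟩))

theorem share_mono {n : ℕ} {p p' : SimpleGraph (Fin n) → Prop} (h : ∀ G, Planar G → p G → p' G) :
    share n p ≤ share n p' := by
  rw [share_eq, share_eq]
  exact Pool.Agent.D0H36.BL.share_mono h

theorem share_one {n : ℕ} {p : SimpleGraph (Fin n) → Prop} (h : ∀ G, Planar G → p G) :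
    share n p = 1 := by
  have h1 : (0 : ℝ) < Nat.card {G : SimpleGraph (Fin n) // Planar G} := by
    have h2 := Pool.Agent.D0H36.BL.hNP n
    have h3 : Pool.Agent.D0H36.BL.num Pool.Agent.R814.BL.Cl n =
        Nat.card {G : SimpleGraph (Fin n) // Planar G} :=
      Nat.card_congr (Equiv.subtypeEquivRight (fun G => ⟨fun h => h.1, fun h => ⟨h, trivial⟩⟩))
    rw [h3] at h2
    exact_mod_cast h2
  unfold share
  have h4 : Nat.card {G : SimpleGraph (Fin n) // Planar G ∧ p G} =
      Nat.card {G : SimpleGraph (Fin n) // Planar G} :=
    Nat.card_congr (Equiv.subtypeEquivRight (fun G => ⟨fun h' => h'.1, fun h' => ⟨h', h G h'⟩⟩))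
  rw [h4, div_self h1.ne']

theorem roots_law {q : ℝ} (hq : 1 < q) (h : PlanarRoot q) :
    ExpSmall (fun c n => share n (fun G => ((P G).rootMultiplicity q : ℝ) < c * n)) := by
  obtain ⟨c, hc, n₀, H⟩ := Pool.Agent.D0H36.BL.root_planar hq h
  refine ⟨c, hc, eventually_atTop.2 ⟨n₀, fun n hn => ?_⟩⟩
  simp only [share_eq]
  exact H n hn

theorem fifty {q : ℝ} (hq : 2 < q) (h : ¬ PlanarRoot q) :
    AllPositive q ∨ ExpSmall (fun _ n => |share n (fun G => 0 < (P G).eval q) - 1 / 2|) := by
  by_cases hA : AllPositive q
  · exact Or.inl hA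
  · right
    have hnz : ∀ (V : Type) [Finite V] (G : SimpleGraph V), Pool.Agent.R814.BL.Cl V G →
        (Pool.Agent.H207R2.BL.chr G).eval q ≠ 0 := fun V _ G hG h0 => h ⟨V, inferInstance, G, hG, h0⟩
    have hex : ∃ (V : Type) (_ : Finite V) (G : SimpleGraph V), Pool.Agent.R814.BL.Cl V G ∧
        (Pool.Agent.H207R2.BL.chr G).eval q < 0 := by
      unfold AllPositive at hA
      push Not at hA
      obtain ⟨V, hV, G, hG, h1⟩ := hA
      exact ⟨V, hV, G, hG, lt_of_le_of_ne h1 (hnz V G hG)⟩
    obtain ⟨c, hc, n₀, H⟩ := Pool.Agent.D0H36.BL.half_planar hq hex hnz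
    refine ⟨c, hc, eventually_atTop.2 ⟨n₀, fun n hn => ?_⟩⟩
    simp only [share_eq]
    exact H n hn

theorem two_three {q : ℝ} (hq : 2 < q) (hq3 : q < 3) (h : ¬ PlanarRoot q) :
    ExpSmall (fun _ n => |share n (fun G => 0 < (P G).eval q) - 1 / 2|) := by
  obtain ⟨c, hc, n₀, H⟩ := Pool.Agent.D0H36.BL.between_two_three hq hq3
    (fun V _ G hG h0 => h ⟨V, inferInstance, G, hG, h0⟩)
  refine ⟨c, hc, eventually_atTop.2 ⟨n₀, fun n hn => ?_⟩⟩
  simp only [share_eq]
  exact H n hn

theorem bl_or (h : ¬ BirkhoffLewis) :
    ExpSmall (fun c n => share n (fun G => (rootsGeFour G : ℝ) < c * n)) := by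
  unfold BirkhoffLewis AllPositive at h
  push Not at h
  obtain ⟨q, hq, V, hV, G, hG, h1⟩ := h
  obtain ⟨c, hc, n₀, H⟩ := Pool.Agent.D0H36.BL.many_roots ⟨V, hV, G, q, hG, hq, h1⟩
  refine ⟨c, hc, eventually_atTop.2 ⟨n₀, fun n hn => ?_⟩⟩
  simp only [share_eq]
  exact H n hn

theorem exp_lt {c : ℝ} (hc : 0 < c) {a : ℝ} (ha : 0 < a) :
    ∀ᶠ n : ℕ in atTop, Real.exp (-(c * n)) < a := by
  have h1 : Tendsto (fun n : ℕ => Real.exp (-(c * n))) atTop (nhds 0) := by
    apply Real.tendsto_exp_neg_atTop_nhds_zero.comp
    exact Tendsto.const_mul_atTop hc tendsto_natCast_atTop_atTop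
  exact h1.eventually_lt_const ha

/-- **Theorem.** (P1) Graphs drawn in the plane are `Planar`. (P2) A `Planar` graph has no `K₅` minor and no
`K₃₃` minor. (P3) `P` is the chromatic polynomial.

(1) If `q > 1` is a root of the chromatic polynomial of a planar graph, then for some `c > 0` and all large
`n` the order of the root `q` is less than `c n` for at most a share `exp (-c n)` of the labelled planar
graphs with `n` vertices.

(2) If `q > 2` is no root of the chromatic polynomial of a planar graph, for example a transcendental
number, then `P(G,q) > 0` for all planar graphs, or for a share of the labelled planar graphs with `n` vertices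
which differs from `1/2` by at most `exp (-c n)`.  (3) The second case holds if `q < 3`.

(4) If the Birkhoff-Lewis conjecture is false, then for some `c > 0` and all large `n` at most a share
`exp (-c n)` of the labelled planar graphs with `n` vertices has less than `c n` chromatic roots `≥ 4`.

(5) The Birkhoff-Lewis conjecture holds if and only if for all `c > 0` there are infinitely many `n` such
that more than a share `exp (-c n)` of the labelled planar graphs with `n` vertices has less than
`c n` chromatic roots `≥ 4`.

(6) For `q > 2`, `P(G,q) > 0` for all planar graphs if and only if for all `c > 0` there are infinitely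
many `n` for which the share of the labelled planar graphs with `P(G,q) > 0` is larger than
`1/2 + exp (-c n)`. -/
theorem result :
    (∀ (V : Type) (G : SimpleGraph V), Drawn G → Planar G) ∧
    (∀ (V : Type) (G : SimpleGraph V), Planar G → ¬ IsMinor (⊤ : SimpleGraph (Fin 5)) G ∧
      ¬ IsMinor (completeBipartiteGraph (Fin 3) (Fin 3)) G) ∧
    (∀ (V : Type) [Finite V] (G : SimpleGraph V) (k : ℕ),
      (P G).eval (k : ℝ) = (Nat.card (G.Coloring (Fin k)) : ℝ)) ∧
    (∀ q : ℝ, 1 < q → PlanarRoot q →
      ExpSmall (fun c n => share n (fun G => ((P G).rootMultiplicity q : ℝ) < c * n))) ∧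
    (∀ q : ℝ, 2 < q → ¬ PlanarRoot q →
      AllPositive q ∨ ExpSmall (fun _ n => |share n (fun G => 0 < (P G).eval q) - 1 / 2|)) ∧
    (∀ q : ℝ, Transcendental ℚ q → ¬ PlanarRoot q) ∧
    (∀ q : ℝ, 2 < q → q < 3 → ¬ PlanarRoot q →
      ExpSmall (fun _ n => |share n (fun G => 0 < (P G).eval q) - 1 / 2|)) ∧
    (¬ BirkhoffLewis → ExpSmall (fun c n => share n (fun G => (rootsGeFour G : ℝ) < c * n))) ∧
    (BirkhoffLewis ↔ ∀ c : ℝ, 0 < c → ∃ᶠ n : ℕ in atTop,
      Real.exp (-(c * n)) < share n (fun G => (rootsGeFour G : ℝ) < c * n)) ∧
    (∀ q : ℝ, 2 < q → (AllPositive q ↔ ∀ c : ℝ, 0 < c → ∃ᶠ n : ℕ in atTop,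
      1 / 2 + Real.exp (-(c * n)) < share n (fun G => 0 < (P G).eval q))) := by
  refine ⟨?_, ?_, ?_, fun q hq h => roots_law hq h, fun q hq h => fifty hq h, ?_,
    fun q hq hq3 h => two_three hq hq3 h, bl_or, ?_, ?_⟩
  · rintro V G ⟨f, γ, h1, h2, h3⟩
    exact ⟨Pool.Agent.Y865.RF.pl V G f γ ⟨h1, h2, h3⟩, Pool.Agent.R814.BL.pl33 V G f γ ⟨h1, h2, h3⟩⟩
  · intro V G h
    exact Pool.Agent.D0H36.BL.no_minor h
  · intro V _ G k
    exact Pool.Agent.H207R2.BL.chr_spec G k
  · rintro q hq ⟨V, hV, G, _, h⟩
    apply hq
    have h1 := Pool.Agent.D0H36.BL.root_algebraic G h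
    exact (IsFractionRing.isAlgebraic_iff ℤ ℚ ℝ).1 h1
  · constructor
    · intro h c hc
      apply Eventually.frequently
      filter_upwards [eventually_ge_atTop 1] with n hn
      have hn0 : (0 : ℝ) < n := by exact_mod_cast hn
      rw [share_one]
      · rw [Real.exp_lt_one_iff]
        have := mul_pos hc hn0
        linarith
      · intro G hG
        have h1 : rootsGeFour G = 0 := by
          unfold rootsGeFour
          rw [Multiset.card_eq_zero, Multiset.filter_eq_nil]
          intro x hx hx4
          have h2 : (P G).eval x = 0 := (mem_roots'.1 hx).2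
          have h3 := h x hx4 (Fin n) G hG
          linarith
        rw [h1, Nat.cast_zero]
        positivity
    · intro h
      by_contra hcon
      obtain ⟨c, hc, H⟩ := bl_or hcon
      obtain ⟨n, h1, h2⟩ := ((h c hc).and_eventually H).exists
      exact absurd h1 (not_lt.2 h2)
  · intro q hq
    constructor
    · intro h c hc
      apply Eventually.frequently
      filter_upwards [exp_lt hc (by norm_num : (0 : ℝ) < 1 / 2)] with n hn
      rw [share_one (fun G hG => h (Fin n) G hG)]
      linarith
    · intro h
      by_contra hcon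
      by_cases hr : PlanarRoot q
      · obtain ⟨c, hc, H⟩ := roots_law (by linarith : 1 < q) hr
        obtain ⟨n, ⟨h1, h2⟩, h3⟩ := (((h c hc).and_eventually H).and_eventually
          (eventually_ge_atTop 1)).exists
        have hn0 : (0 : ℝ) < n := by exact_mod_cast h3
        have h4 : share n (fun G => 0 < (P G).eval q) ≤
            share n (fun G => ((P G).rootMultiplicity q : ℝ) < c * n) := by
          apply share_mono
          intro G _ hG
          have h5 : (P G).rootMultiplicity q = 0 := by
            apply rootMultiplicity_eq_zero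
            intro h6
            have h7 : (P G).eval q = 0 := h6
            linarith
          rw [h5, Nat.cast_zero]
          positivity
        linarith
      · rcases fifty hq hr with hA | ⟨c, hc, H⟩
        · exact hcon hA
        · obtain ⟨n, h1, h2⟩ := ((h c hc).and_eventually H).exists
          have h3 := (abs_le.1 h2).2
          linarith

end Pool.Agent.Results.MP_0d034c_co.FiftyPercentLaw
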